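import Pool.Agent.H61.NVK.TargetsE2
import Pool.Agent.H63.HK.DU
import Pool.Agent.H98.CM4.EMB

/-!
# The average of the characters (row E_AVC)
-/

set_option autoImplicit false

open MeasureTheory Set Filter NumberField NumberField.InfinitePlace Pool.Agent.H65.CM4
  Pool.Agent.H61.CM4 Pool.Agent.H61.NVK
open scoped Real nonZeroDivisors

namespace Pool.Agent.H98.NVE_AVC

open Pool.Agent.H98.CM4

section

variable {k : Type} [Field k] [NumberField k] [IsTotallyReal k]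

/-- the sum of a nontrivial character over representatives vanishes -/
theorem sum_char_eq_zero {h I : Ideal (𝓞 k)} {R : Finset (𝓞 k)} (hR : RpI h I R)
    (χ : 𝓞 k → ℂ) (hadd : ∀ a b, χ (a + b) = χ a * χ b) (htriv : ∀ a ∈ I, χ a = 1)
    (j0 : 𝓞 k) (hj0 : j0 ∈ h) (hne : χ j0 ≠ 1) : ∑ j ∈ R, χ j = 0 := by
  classical
  have hex : ∀ r : 𝓞 k, ∃ s : 𝓞 k, r ∈ R → s ∈ R ∧ r + j0 - s ∈ I := by
    intro r
    by_cases hr : r ∈ R
    · obtain ⟨s, hs, hs2⟩ := hR.ex (r + j0) (h.add_mem (hR.mem r hr) hj0)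
      exact ⟨s, fun _ => ⟨hs, hs2⟩⟩
    · exact ⟨0, fun h' => absurd h' hr⟩
  choose f hf using hex
  have hinj : Set.InjOn f (R : Set (𝓞 k)) := by
    intro r hr r' hr' hrr
    apply hR.uniq r hr r' hr'
    have e1 := (hf r hr).2
    have e2 := (hf r' hr').2
    rw [hrr] at e1
    have e3 := I.sub_mem e1 e2
    have e4 : r + j0 - f r' - (r' + j0 - f r') = r - r' := by ring
    rwa [e4] at e3
  have himg : R.image f = R := by
    apply Finset.eq_of_subset_of_card_le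
    · intro x hx
      obtain ⟨r, hr, rfl⟩ := Finset.mem_image.mp hx
      exact (hf r hr).1
    · rw [Finset.card_image_of_injOn hinj]
  have hχ : ∀ r ∈ R, χ (f r) = χ r * χ j0 := by
    intro r hr
    have e1 := (hf r hr).2
    have e2 : r + j0 = f r + (r + j0 - f r) := by ring
    rw [← hadd, e2, hadd, htriv _ e1, mul_one]
  have hsum : ∑ j ∈ R, χ j = (∑ j ∈ R, χ j) * χ j0 := by
    calc ∑ j ∈ R, χ j = ∑ j ∈ R.image f, χ j := by rw [himg]
      _ = ∑ r ∈ R, χ (f r) := Finset.sum_image hinj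
      _ = ∑ r ∈ R, χ r * χ j0 := Finset.sum_congr rfl hχ
      _ = (∑ j ∈ R, χ j) * χ j0 := by rw [Finset.sum_mul]
  have h1 : (∑ j ∈ R, χ j) * (χ j0 - 1) = 0 := by
    rw [mul_sub, mul_one, ← hsum, sub_self]
  rcases mul_eq_zero.mp h1 with h2 | h2
  · exact h2
  · exact absurd (sub_eq_zero.mp h2) hne

/-- the norm of a nonzero element of a fractional ideal -/
theorem norm_ge (I : Pool.Agent.H25.HK.FI k) (hI : I ≠ 0) (z : k) (hz : z ∈ I) (hz0 : z ≠ 0) :
    (FractionalIdeal.absNorm I : ℝ) ≤ |((Algebra.norm ℚ z : ℚ) : ℝ)| := by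
  have h1 : I * (I⁻¹ * FractionalIdeal.spanSingleton (𝓞 k)⁰ z) =
      FractionalIdeal.spanSingleton (𝓞 k)⁰ z := by
    rw [← mul_assoc, mul_inv_cancel₀ hI, one_mul]
  have h2 : I⁻¹ * FractionalIdeal.spanSingleton (𝓞 k)⁰ z ≤ 1 := by
    have h3 : FractionalIdeal.spanSingleton (𝓞 k)⁰ z ≤ I := by
      rw [FractionalIdeal.spanSingleton_le_iff_mem]
      exact hz
    calc I⁻¹ * FractionalIdeal.spanSingleton (𝓞 k)⁰ z ≤ I⁻¹ * I := by
          gcongr
      _ = 1 := inv_mul_cancel₀ hI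
  obtain ⟨J, hJ⟩ := FractionalIdeal.le_one_iff_exists_coeIdeal.mp h2
  have hJ0 : J ≠ ⊥ := by
    intro h
    rw [h] at hJ
    rw [← hJ, FractionalIdeal.coeIdeal_bot, mul_zero] at h1
    exact (FractionalIdeal.spanSingleton_ne_zero_iff.mpr hz0) h1.symm
  have h4 : FractionalIdeal.absNorm I * FractionalIdeal.absNorm (J : Pool.Agent.H25.HK.FI k) =
      |Algebra.norm ℚ z| := by
    rw [← FractionalIdeal.absNorm_span_singleton (R := 𝓞 k), ← h1, map_mul, hJ]
  rw [FractionalIdeal.coeIdeal_absNorm] at h4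
  have h5 : (1 : ℚ) ≤ (Ideal.absNorm J : ℚ) := by
    have : Ideal.absNorm J ≠ 0 := by
      rw [Ne, Ideal.absNorm_eq_zero_iff]
      exact hJ0
    exact_mod_cast Nat.one_le_iff_ne_zero.mpr this
  have h6 : FractionalIdeal.absNorm I ≤ |Algebra.norm ℚ z| := by
    rw [← h4]
    have h7 := FractionalIdeal.absNorm_nonneg I
    nlinarith
  exact_mod_cast h6

end

theorem pf_AVC (hFRI : T_FRI) : T_AVC := by
  intro k _ _ _ I J B h R β p hI hJ hIJ hR hp1 hp2 hS
  obtain ⟨hp1, hp10⟩ := hp1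
  obtain ⟨hp2, hp20⟩ := hp2
  set x : k := p.1 * p.2 with hx
  -- the character
  set θ : 𝓞 k → ℝ := fun j => π * ((Algebra.trace ℚ k (x * (j : k)) : ℚ) : ℝ) with hθ
  set χ : 𝓞 k → ℂ := fun j => Complex.exp (θ j * Complex.I) with hχ
  set α : ℝ := π * ∑ v, rv v x * β v with hα
  have hcos : ∀ j : 𝓞 k, 2 * π * ∑ v, rv v p.1 * (rv v p.2 * ((β v + ev j v) / 2)) = α + θ j := by
    intro j
    rw [hα, hθ]
    simp only
    rw [← sum_rv, ← mul_add, ← Finset.sum_add_distrib, mul_comm 2 π, mul_assoc, Finset.mul_sum]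
    congr 1
    apply Finset.sum_congr rfl
    intro v _
    unfold ev
    rw [hx, map_mul, map_mul, map_mul]
    ring
  have hadd : ∀ a b, χ (a + b) = χ a * χ b := by
    intro a b
    simp only [hχ, hθ]
    rw [← Complex.exp_add]
    congr 1
    push_cast
    rw [mul_add, map_add]
    push_cast
    ring
  have htriv : ∀ a ∈ Ideal.span {2} * (B : Ideal (𝓞 k)), χ a = 1 := by
    intro a ha
    obtain ⟨b, hb, rfl⟩ := Ideal.mem_span_singleton_mul.mp ha
    have h1 : p.2 * (b : k) ∈ I := by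
      rw [hIJ, mul_comm]
      exact FractionalIdeal.mul_mem_mul hp2 (FractionalIdeal.mem_coeIdeal_of_mem _ hb)
    have h2 := (FractionalIdeal.mem_dual hI).mp hp1 _ h1
    obtain ⟨m, hm⟩ := h2
    rw [Algebra.traceForm_apply] at hm
    have h3 : Algebra.trace ℚ k (x * ((2 * b : 𝓞 k) : k)) = 2 * (m : ℚ) := by
      have e0 : ((2 * b : 𝓞 k) : k) = 2 * (b : k) := by
        show algebraMap (𝓞 k) k (2 * b) = _
        rw [map_mul, map_ofNat]
      have e1 : x * ((2 * b : 𝓞 k) : k) = (2 : ℚ) • (p.1 * (p.2 * (b : k))) := by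
        rw [e0, Algebra.smul_def, map_ofNat, hx]
        ring
      rw [e1, map_smul, ← hm]
      simp
    simp only [hχ, hθ]
    rw [h3]
    have e2 : (((π * ((2 * (m : ℚ) : ℚ) : ℝ) : ℝ) : ℂ) * Complex.I) =
        (m : ℂ) * (2 * π * Complex.I) := by
      push_cast
      ring
    rw [e2]
    exact Complex.exp_int_mul_two_pi_mul_I m
  have hall : ∀ j ∈ (h : Ideal (𝓞 k)), χ j = 1 := by
    by_contra hcon
    push Not at hcon
    obtain ⟨j0, hj0, hne⟩ := hcon
    have hz := sum_char_eq_zero hR χ hadd htriv j0 hj0 hne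
    apply hS
    have e1 : ∀ j : 𝓞 k, Real.cos (2 * π * ∑ v, rv v p.1 * (rv v p.2 * ((β v + ev j v) / 2))) =
        (Complex.exp (α * Complex.I) * χ j).re := by
      intro j
      rw [hcos, hχ]
      simp only
      rw [← Complex.exp_add, ← add_mul, ← Complex.ofReal_add, Complex.exp_ofReal_mul_I_re]
    rw [Finset.sum_congr rfl (fun j _ => e1 j), ← Complex.re_sum, ← Finset.mul_sum, hz, mul_zero,
      Complex.zero_re]
  -- x / 2 is in the dual of h
  have hh0 : (h : Ideal (𝓞 k)) ≠ ⊥ := nonZeroDivisors.coe_ne_zero h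
  have hF0 : (((h : Ideal (𝓞 k)) : Ideal (𝓞 k)) : Pool.Agent.H25.HK.FI k) ≠ 0 := by
    rw [Ne, FractionalIdeal.coeIdeal_eq_zero]
    exact hh0
  set K : Pool.Agent.H25.HK.FI k :=
    Pool.Agent.H25.HK.du k (((h : Ideal (𝓞 k)) : Ideal (𝓞 k)) : Pool.Agent.H25.HK.FI k) with hK
  obtain ⟨hK0, -, -, hpos, hnK⟩ := Pool.Agent.H63.HK.du k _ hF0
  have hmem : x / 2 ∈ K := by
    rw [hK]
    unfold Pool.Agent.H25.HK.du
    rw [FractionalIdeal.mem_dual hF0]
    intro a ha
    obtain ⟨j, hj, rfl⟩ := (FractionalIdeal.mem_coeIdeal _).mp ha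
    have h1 := hall j hj
    simp only [hχ, hθ] at h1
    rw [Complex.exp_eq_one_iff] at h1
    obtain ⟨n, hn⟩ := h1
    refine ⟨n, ?_⟩
    have h2 : ((π * ((Algebra.trace ℚ k (x * (j : k)) : ℚ) : ℝ) : ℝ) : ℂ) = ((n * (2 * π) : ℝ) : ℂ) := by
      have h3 : ((π * ((Algebra.trace ℚ k (x * (j : k)) : ℚ) : ℝ) : ℝ) : ℂ) * Complex.I =
          ((n * (2 * π) : ℝ) : ℂ) * Complex.I := by
        rw [hn]
        push_cast
        ring
      exact mul_right_cancel₀ Complex.I_ne_zero h3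
    have h4 : π * ((Algebra.trace ℚ k (x * (j : k)) : ℚ) : ℝ) = n * (2 * π) := by
      exact_mod_cast h2
    have h5 : ((Algebra.trace ℚ k (x * (j : k)) : ℚ) : ℝ) = 2 * n := by
      have := Real.pi_pos
      have h6 : π * (((Algebra.trace ℚ k (x * (j : k)) : ℚ) : ℝ) - 2 * n) = 0 := by
        linarith
      rcases mul_eq_zero.mp h6 with h7 | h7
      · exact absurd h7 this.ne'
      · linarith
    have h8 : Algebra.trace ℚ k (x * (j : k)) = 2 * n := by exact_mod_cast h5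
    rw [Algebra.traceForm_apply]
    have e1 : x / 2 * (j : k) = (1 / 2 : ℚ) • (x * (j : k)) := by
      rw [Algebra.smul_def]
      simp
      ring
    have e2 : (algebraMap (𝓞 k) k j : k) = (j : k) := rfl
    rw [e2, e1, map_smul, h8]
    simp
  have hx0 : x ≠ 0 := mul_ne_zero hp10 hp20
  have hN := norm_ge K hK0 (x / 2) hmem (div_ne_zero hx0 two_ne_zero)
  rw [← Nr_eq] at hN
  have hNr : Nr (x / 2) = (∏ v, |rv v p.1 * rv v p.2|) / 2 ^ dg k := by
    unfold Nr
    have e1 : ∀ v : Pl k, |rv v (x / 2)| = |rv v p.1 * rv v p.2| / 2 := by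
      intro v
      rw [hx, map_div₀, map_mul, map_ofNat, abs_div, abs_two]
    rw [Finset.prod_congr rfl (fun v _ => e1 v), Finset.prod_div_distrib, Finset.prod_const,
      Finset.card_univ, card_pl]
  rw [hNr] at hN
  rw [FractionalIdeal.coeIdeal_absNorm] at hnK hpos
  have hnm : (nm (h : Ideal (𝓞 k))) = (((Ideal.absNorm (h : Ideal (𝓞 k)) : ℕ) : ℚ) : ℝ) := by
    unfold nm
    push_cast
    rfl
  have hdk : ((dk k : ℕ) : ℝ) = |(discr k : ℝ)| := by
    unfold dk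
    rw [Nat.cast_natAbs, Int.cast_abs]
  rw [hnm, hdk]
  have hd0 : 0 < |(discr k : ℝ)| := by
    rw [abs_pos]
    exact_mod_cast discr_ne_zero k
  have h2n : (0 : ℝ) < 2 ^ dg k := by positivity
  rw [div_le_iff₀ (by positivity)]
  rw [le_div_iff₀ h2n] at hN
  have h9 : (2 : ℝ) ^ dg k = (FractionalIdeal.absNorm K : ℝ) * 2 ^ dg k *
      ((((Ideal.absNorm (h : Ideal (𝓞 k)) : ℕ) : ℚ) : ℝ) * |(discr k : ℝ)|) := by
    linear_combination (-(2 : ℝ) ^ dg k) * hnK
  calc (2 : ℝ) ^ dg k = (FractionalIdeal.absNorm K : ℝ) * 2 ^ dg k *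
      ((((Ideal.absNorm (h : Ideal (𝓞 k)) : ℕ) : ℚ) : ℝ) * |(discr k : ℝ)|) := h9
    _ ≤ _ := mul_le_mul_of_nonneg_right hN (by positivity)

end Pool.Agent.H98.NVE_AVC
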