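import Pool.Agent.H61.NVK.TargetsE1

/-!
# The functional equation of the sum over the classes (row E_PSI)
-/

set_option autoImplicit false

open MeasureTheory Set Filter NumberField NumberField.InfinitePlace Pool.Agent.H65.CM4
  Pool.Agent.H61.CM4 Pool.Agent.H61.NVK
open scoped Real nonZeroDivisors Topology

namespace Pool.Agent.H98.NVE_PSI

section

variable {k : Type} [Field k] [NumberField k] [IsTotallyReal k]

theorem qp_nonneg {x y : Pl k → ℝ} (hy : ∀ v, 0 < y v) (u : V2 k) : 0 ≤ qp x y u := by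
  unfold qp qr
  apply Finset.prod_nonneg
  intro v _
  have := hy v
  positivity

/-- scaling of the Dirichlet series -/
theorem Zd_scale (M : La k) {x y : Pl k → ℝ} (hy : ∀ v, 0 < y v) (r a : ℝ) (hr : 0 ≤ r)
    (ha : 0 ≤ a) (s : ℂ) : Zd M x y (r * a) s = (r : ℂ) ^ (-s) * Zd M x y a s := by
  unfold Zd
  rw [← tsum_mul_left]
  apply tsum_congr
  intro u
  split_ifs
  · rw [mul_assoc, Complex.ofReal_mul,
      Complex.mul_cpow_ofReal_nonneg hr (mul_nonneg ha (qp_nonneg hy u))]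
  · rw [mul_zero]

/-- the Dirichlet series as a sum over a subtype -/
theorem Zd_subtype (M : La k) (x y : Pl k → ℝ) (a : ℝ) (s : ℂ) :
    Zd M x y a s = ∑' u : {u : V2 k // u ∈ M ∧ u ∈ Fo k}, ((a * qp x y (u : V2 k) : ℝ) : ℂ) ^ (-s) := by
  classical
  have h := tsum_subtype {u : V2 k | u ∈ M ∧ u ∈ Fo k} (fun u => ((a * qp x y u : ℝ) : ℂ) ^ (-s))
  unfold Zd
  refine Eq.trans ?_ h.symm
  apply tsum_congr
  intro u
  rw [Set.indicator_apply]
  by_cases hu : u ∈ M ∧ u ∈ Fo k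
  · rw [if_pos hu, if_pos (show u ∈ {u : V2 k | u ∈ M ∧ u ∈ Fo k} from hu)]
  · rw [if_neg hu, if_neg (show ¬ u ∈ {u : V2 k | u ∈ M ∧ u ∈ Fo k} from hu)]

theorem cpow_scale {d : ℝ} (hd : 0 < d) (s : ℂ) :
    ((((d ^ 2)⁻¹ : ℝ)) : ℂ) ^ (-s) = (d : ℂ) ^ (2 * s) := by
  have h1 : (((d ^ 2)⁻¹ : ℝ) : ℂ) ≠ 0 := by
    exact_mod_cast (inv_pos.mpr (pow_pos hd 2)).ne'
  have h2 : (d : ℂ) ≠ 0 := by exact_mod_cast hd.ne'
  rw [Complex.cpow_def_of_ne_zero h1, Complex.cpow_def_of_ne_zero h2,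
    ← Complex.ofReal_log (inv_pos.mpr (pow_pos hd 2)).le, ← Complex.ofReal_log hd.le,
    Real.log_inv, Real.log_pow]
  congr 1
  push_cast
  ring

end

theorem pf_PSI (hIXD : T_IXD) (hPHI : T_PHI) (hLIX : T_LIX) (hLDU : T_LDU) (hEPC : T_EPC) :
    T_PSI := by
  classical
  intro k _ _ _ B x y hy
  have hd : 0 < dk k := (hIXD k).1
  have hdR : (0 : ℝ) < (dk k : ℝ) := by exact_mod_cast hd
  have hdC : (dk k : ℂ) ≠ 0 := by exact_mod_cast hd.ne'
  have hix : ∀ c : ClassGroup (𝓞 k), ix (Lb (ci c) B) ≠ 0 := fun c => (hLIX k (cr c) B).2.1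
  choose Φ hΦd hΦ1 hΦ2 hΦ3 using fun c : ClassGroup (𝓞 k) => hPHI k (Lb (ci c) B) x y (hix c) hy
  set Ψ : ℂ → ℂ := fun s => (dk k : ℂ) ^ s * ∑ c : ClassGroup (𝓞 k), Φ c s with hΨ
  set Z : ClassGroup (𝓞 k) → ℂ → ℂ :=
    fun c s => Zd (Lb (ci c) B) x y (ix (Lb (ci c) B) : ℝ)⁻¹ s with hZ
  have hdiff : Differentiable ℂ Ψ := by
    rw [hΨ]
    apply Differentiable.mul
    · exact differentiable_id.const_cpow (Or.inl hdC)
    · exact Differentiable.fun_sum (fun c _ => hΦd c)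
  have hform : ∀ s : ℂ, 1 < s.re → Ψ s = gG s ^ dg k * (dk k : ℂ) ^ s * ∑ c : ClassGroup (𝓞 k), Z c s := by
    intro s hs
    simp only [hΨ, hZ]
    rw [Finset.sum_congr rfl (fun c _ => hΦ1 c s hs), ← Finset.mul_sum]
    ring
  obtain ⟨κ, hκ⟩ := hLDU k
  -- the involution of the class group
  set σ : ClassGroup (𝓞 k) → ClassGroup (𝓞 k) :=
    fun c => κ * (c * ClassGroup.mk0 B)⁻¹ with hσ
  have hinv : Function.Involutive σ := by
    intro c
    simp only [hσ]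
    rw [mul_inv, mul_inv, inv_inv, mul_assoc κ⁻¹, mul_assoc c, mul_inv_cancel, mul_one,
      mul_inv_cancel_left]
  have hdual : ∀ (c : ClassGroup (𝓞 k)) (s : ℂ),
      Zd (du (Lb (ci c) B)) x y ((ix (Lb (ci c) B) : ℝ) / (Dm (Lb (ci c) B) : ℝ) ^ (2 * dg k)) s =
        (dk k : ℂ) ^ (2 * s) * Z (σ c) s := by
    intro c s
    obtain ⟨a', h1, h2, h3⟩ := hκ (cr c) B
    have hcr : ClassGroup.mk0 (cr c) = c := Function.surjInv_eq ClassGroup.mk0_surjective c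
    rw [hcr] at h2
    have h1' : du (Lb (ci c) B) = Lb (a' : Ideal (𝓞 k)) B := h1
    have h3' : (dk k : ℝ) ^ 2 * ix (Lb (ci c) (B : Ideal (𝓞 k))) * ix (Lb (a' : Ideal (𝓞 k)) B) =
        (Dm (Lb (ci c) (B : Ideal (𝓞 k))) : ℝ) ^ (2 * dg k) := h3
    have hia : ix (Lb (a' : Ideal (𝓞 k)) B) ≠ 0 := (hLIX k a' B).2.1
    have hiaR : (0 : ℝ) < (ix (Lb (a' : Ideal (𝓞 k)) B) : ℝ) := by
      exact_mod_cast Nat.pos_of_ne_zero hia
    have hicR : (0 : ℝ) < (ix (Lb (ci c) (B : Ideal (𝓞 k))) : ℝ) := by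
      exact_mod_cast Nat.pos_of_ne_zero (hix c)
    have e1 : (ix (Lb (ci c) (B : Ideal (𝓞 k))) : ℝ) / (Dm (Lb (ci c) (B : Ideal (𝓞 k))) : ℝ) ^ (2 * dg k) =
        ((dk k : ℝ) ^ 2)⁻¹ * (ix (Lb (a' : Ideal (𝓞 k)) B) : ℝ)⁻¹ := by
      rw [← h3']
      field_simp
    rw [h1', e1, Zd_scale _ hy _ _ (by positivity) (by positivity), cpow_scale hdR]
    congr 1
    have hcr' : ClassGroup.mk0 (cr (σ c)) = σ c := Function.surjInv_eq ClassGroup.mk0_surjective _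
    obtain ⟨e, he⟩ := hEPC k a' (cr (σ c)) B (by rw [h2, hcr'])
    have h4 : Z (σ c) s = Zd (Lb ((cr (σ c) : (Ideal (𝓞 k))⁰) : Ideal (𝓞 k)) B) x y
        (ix (Lb ((cr (σ c) : (Ideal (𝓞 k))⁰) : Ideal (𝓞 k)) B) : ℝ)⁻¹ s := rfl
    rw [h4, Zd_subtype, Zd_subtype, ← e.tsum_eq]
    apply tsum_congr
    intro u
    have h5 := he x y u
    rw [inv_mul_eq_div, inv_mul_eq_div, h5]
  have hsym1 : ∀ s : ℂ, 1 < s.re → Ψ (1 - s) = Ψ s := by
    intro s hs
    rw [hform s hs]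
    have e1 : ∀ c ∈ (Finset.univ : Finset (ClassGroup (𝓞 k))), Φ c (1 - s) =
        ((1 / dk k : ℝ) : ℂ) * gG s ^ dg k * (dk k : ℂ) ^ (2 * s) * Z (σ c) s := by
      intro c _
      rw [hΦ2 c s hs, hdual c s]
      ring
    simp only [hΨ]
    rw [Finset.sum_congr rfl e1, ← Finset.mul_sum]
    have e2 : ∑ c : ClassGroup (𝓞 k), Z (σ c) s = ∑ c : ClassGroup (𝓞 k), Z c s :=
      Equiv.sum_comp hinv.toPerm (fun c => Z c s)
    rw [e2]
    have e3 : (dk k : ℂ) ^ (1 - s) * (((1 / dk k : ℝ) : ℂ) * (dk k : ℂ) ^ (2 * s)) =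
        (dk k : ℂ) ^ s := by
      have e4 : ((1 / dk k : ℝ) : ℂ) = (dk k : ℂ) ^ (-1 : ℂ) := by
        rw [Complex.cpow_neg_one]
        push_cast
        rw [one_div]
      rw [e4, ← Complex.cpow_add _ _ hdC, ← Complex.cpow_add _ _ hdC]
      congr 1
      ring
    rw [← e3]
    ring
  have hsym : ∀ s : ℂ, Ψ (1 - s) = Ψ s := by
    have hA : AnalyticOnNhd ℂ (fun s => Ψ (1 - s)) univ := by
      intro z _
      have : Differentiable ℂ (fun s => Ψ (1 - s)) :=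
        hdiff.comp ((differentiable_const 1).sub differentiable_id)
      exact this.analyticAt z
    have hB : AnalyticOnNhd ℂ Ψ univ := fun z _ => hdiff.analyticAt z
    have hev : (fun s => Ψ (1 - s)) =ᶠ[𝓝 (2 : ℂ)] Ψ := by
      have hopen : IsOpen {s : ℂ | 1 < s.re} := isOpen_lt continuous_const Complex.continuous_re
      have hmem : (2 : ℂ) ∈ {s : ℂ | 1 < s.re} := by simp
      filter_upwards [hopen.mem_nhds hmem] with s hs
      exact hsym1 s hs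
    have := hA.eq_of_eventuallyEq hB hev
    intro s
    exact congrFun this s
  refine ⟨Ψ, hdiff, ?_, hsym, hform⟩
  intro b
  choose C j hCj using fun c : ClassGroup (𝓞 k) => hΦ3 c b
  refine ⟨(dk k : ℝ) ^ b * ∑ c : ClassGroup (𝓞 k), |C c|, ∑ c : ClassGroup (𝓞 k), j c, ?_⟩
  intro s hs
  simp only [hΨ]
  rw [norm_mul, mul_assoc]
  have h1 : ‖(dk k : ℂ) ^ s‖ ≤ (dk k : ℝ) ^ b := by
    have e1 : (dk k : ℂ) = ((dk k : ℝ) : ℂ) := by push_cast; rfl
    rw [e1, Complex.norm_cpow_eq_rpow_re_of_pos hdR]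
    apply Real.rpow_le_rpow_of_exponent_le
    · exact_mod_cast hd
    · exact (abs_le.mp hs).2
  have h2 : ‖∑ c : ClassGroup (𝓞 k), Φ c s‖ ≤
      (∑ c : ClassGroup (𝓞 k), |C c|) * (1 + |s.im|) ^ (∑ c : ClassGroup (𝓞 k), j c) := by
    refine (norm_sum_le _ _).trans ?_
    rw [Finset.sum_mul]
    apply Finset.sum_le_sum
    intro c _
    refine (hCj c s hs).trans ?_
    have hone : (1 : ℝ) ≤ 1 + |s.im| := by
      have := abs_nonneg s.im
      linarith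
    calc C c * (1 + |s.im|) ^ j c ≤ |C c| * (1 + |s.im|) ^ j c := by
          apply mul_le_mul_of_nonneg_right (le_abs_self _)
          positivity
      _ ≤ |C c| * (1 + |s.im|) ^ (∑ c : ClassGroup (𝓞 k), j c) := by
          apply mul_le_mul_of_nonneg_left _ (abs_nonneg _)
          apply pow_le_pow_right₀ hone
          exact Finset.single_le_sum (f := j) (fun _ _ => Nat.zero_le _) (Finset.mem_univ c)
  exact mul_le_mul h1 h2 (norm_nonneg _) (by positivity)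

end Pool.Agent.H98.NVE_PSI
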